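import Pool.Agent.U610.PC.Stm
import Pool.Agent.W335.BMX.Odd

/-!
# Project PC, package UNI: three units at an odd prime
-/

set_option autoImplicit false

namespace Pool.Agent.U94.PC

open Polynomial Pool.Agent.U610.PC

theorem t_UNI : S_UNI := by
  intro p hp hp2 n hn d hd
  obtain ⟨m, rfl⟩ : ∃ m, n = m + 3 := ⟨n - 3, by omega⟩
  have hz : ∀ i, PadicInt.toZMod (d i) ≠ 0 := by
    intro i h
    rw [Pool.Agent.W335.BMX.toZMod_eq_zero_iff, ← PadicInt.norm_lt_one_iff_dvd, hd i] at h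
    exact lt_irrefl _ h
  set d0 := d 0 with hd0
  set d1 := d (Fin.succ 0) with hd1
  set d2 := d (Fin.succ (Fin.succ 0)) with hd2
  have z0 : PadicInt.toZMod d0 ≠ 0 := hz _
  have z1 : PadicInt.toZMod d1 ≠ 0 := hz _
  have z2 : PadicInt.toZMod d2 ≠ 0 := hz _
  have g1 : degree (C (PadicInt.toZMod d0) * X ^ 2) = 2 := degree_C_mul_X_pow 2 z0
  have g2 : degree (C (PadicInt.toZMod d1) * X ^ 2 + C (PadicInt.toZMod d2)) = 2 := by
    rw [degree_add_eq_left_of_degree_lt]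
    · exact degree_C_mul_X_pow 2 z1
    · rw [degree_C_mul_X_pow 2 z1, degree_C z2]
      norm_num
  obtain ⟨a, b, hab⟩ := FiniteField.exists_root_sum_quadratic g1 g2 (by
    rw [ZMod.card]
    exact (Nat.Prime.eq_two_or_odd hp.out).resolve_left hp2)
  simp only [eval_mul, eval_C, eval_pow, eval_X, eval_add] at hab
  obtain ⟨x, rfl⟩ : ∃ x : ℤ, (x : ZMod p) = a := ZMod.intCast_surjective a
  obtain ⟨y, rfl⟩ : ∃ y : ℤ, (y : ZMod p) = b := ZMod.intCast_surjective b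
  obtain ⟨u2, hu2⟩ : IsUnit d2 := PadicInt.isUnit_iff.2 (hd _)
  set u : ℤ_[p] := -(d0 * (x : ℤ_[p]) ^ 2 + d1 * (y : ℤ_[p]) ^ 2) * ((u2⁻¹ : ℤ_[p]ˣ) : ℤ_[p]) with hu
  have hud : d2 * u = -(d0 * (x : ℤ_[p]) ^ 2 + d1 * (y : ℤ_[p]) ^ 2) := by
    rw [hu, ← hu2]
    have : (u2 : ℤ_[p]) * ((u2⁻¹ : ℤ_[p]ˣ) : ℤ_[p]) = 1 := Units.mul_inv u2
    linear_combination (-(d0 * (x : ℤ_[p]) ^ 2 + d1 * (y : ℤ_[p]) ^ 2)) * this
  have hres : PadicInt.toZMod u = 1 ^ 2 := by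
    have h1 := congrArg (PadicInt.toZMod (p := p)) hud
    simp only [map_mul, map_neg, map_add, map_pow, map_intCast] at h1
    rw [one_pow]
    apply mul_left_cancel₀ z2
    rw [mul_one, h1]
    linear_combination -hab
  obtain ⟨s, hs⟩ := Pool.Agent.W335.BMX.sq_of_residue hp2 u 1 one_ne_zero hres
  have hs0 : s ≠ 0 := by
    rintro rfl
    rw [hs, mul_zero, map_zero] at hres
    norm_num at hres
  refine ⟨Fin.cons ((x : ℤ_[p]) : ℚ_[p]) (Fin.cons ((y : ℤ_[p]) : ℚ_[p])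
    (Fin.cons ((s : ℤ_[p]) : ℚ_[p]) fun _ => 0)), ?_, ?_⟩
  · intro h
    have h1 := congrFun h (Fin.succ (Fin.succ 0))
    simp only [Fin.cons_succ, Fin.cons_zero, Pi.zero_apply] at h1
    exact hs0 (PadicInt.ext (h1.trans PadicInt.coe_zero.symm))
  · rw [Fin.sum_univ_succ, Fin.sum_univ_succ, Fin.sum_univ_succ]
    simp only [Fin.cons_succ, Fin.cons_zero]
    have h0 : ∑ i : Fin m, ((d i.succ.succ.succ : ℤ_[p]) : ℚ_[p]) * (0 : ℚ_[p]) ^ 2 = 0 :=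
      Finset.sum_eq_zero fun i _ => by ring
    rw [h0, ← hd0, ← hd1, ← hd2, add_zero]
    have h2 : d0 * (x : ℤ_[p]) ^ 2 + (d1 * (y : ℤ_[p]) ^ 2 + d2 * s ^ 2) = 0 := by
      rw [sq s, ← hs]
      linear_combination hud
    have h3 := congrArg (fun t : ℤ_[p] => (t : ℚ_[p])) h2
    push_cast at h3 ⊢
    exact h3

end Pool.Agent.U94.PC
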